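import Pool.Agent.helper47.TFQ.Spec

/-! # Project tfq, row QP4 -/

set_option autoImplicit false

namespace Pool.Agent.TFQ

open Polynomial Pool.Agent.GJ Pool.Agent.TK
open Pool.Agent.FJ (VT Om chiO IsFrobO rf rs)
open Pool.Agent.TD (zK)

noncomputable section

theorem QP4_deg {F : Type} [Field F] {k : ℕ} (c : Fin k → F) :
    (∑ i : Fin k, C (c i) * X ^ (i : ℕ) : F[X]).degree < k :=
  Polynomial.degree_sum_fin_lt c

theorem QP4_monic {F : Type} [Field F] {k : ℕ} (c : Fin k → F) : (gq c).Monic :=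
  Polynomial.monic_X_pow_add (QP4_deg c)

theorem QP4_natDegree {F : Type} [Field F] {k : ℕ} (c : Fin k → F) : (gq c).natDegree = k := by
  apply Polynomial.natDegree_eq_of_degree_eq_some
  unfold gq
  rw [Polynomial.degree_add_eq_left_of_degree_lt, Polynomial.degree_X_pow]
  rw [Polynomial.degree_X_pow]
  exact QP4_deg c

theorem QP4_pow {F : Type} [Field F] [Fintype F] {K : Type} [Field K] {p M : ℕ} [Fact p.Prime] [CharP K p]
    (e : F →+* K) (hM : cq F = p ^ M) (b : F) (u v : K)
    (hv : v ^ (cq F - 1) = u - e b) (m : ℕ) :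
    v ^ cq F ^ m = v * ∏ i ∈ Finset.range m, (u ^ cq F ^ i - e b) := by
  induction m with
  | zero => simp
  | succ m ih =>
    rw [Finset.prod_range_succ, ← mul_assoc, ← ih]
    have hb : (e b) ^ cq F ^ m = e b := by
      rw [← map_pow, FiniteField.pow_card_pow]
    have h1 : u ^ cq F ^ m - e b = (v ^ (cq F - 1)) ^ cq F ^ m := by
      rw [hv]
      have h3 : cq F ^ m = p ^ (M * m) := by rw [hM, pow_mul]
      have h4 : (u - e b) ^ p ^ (M * m) = u ^ p ^ (M * m) - (e b) ^ p ^ (M * m) :=
        sub_pow_char_pow u (e b) (M * m)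
      rw [h3, h4, ← h3, hb]
    rw [h1, ← pow_mul, ← pow_add]
    congr 1
    have hp : 1 ≤ cq F := Fintype.card_pos
    have h2 : cq F = (cq F - 1) + 1 := by omega
    calc cq F ^ (m + 1) = cq F ^ m * ((cq F - 1) + 1) := by rw [← h2, pow_succ]
      _ = cq F ^ m + (cq F - 1) * cq F ^ m := by ring

theorem QP4 (hKP2 : TK.KP2_stmt) : QP4_stmt := by
  intro F _ _ _ K _ p M n _ _ e hM a ha k m hkm c hc u v hv
  have hinj : Function.Injective (fun j => e (a j)) := fun i j hij => ha (e.injective hij)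
  set G : K[X] := (gq c).map e * ∏ i ∈ Finset.range m, (X - C (u ^ cq F ^ i)) with hG
  have hm1 : ((gq c).map e).Monic := (QP4_monic c).map e
  have hm2 : (∏ i ∈ Finset.range m, (X - C (u ^ cq F ^ i)) : K[X]).Monic :=
    Polynomial.monic_prod_of_monic _ _ fun i _ => Polynomial.monic_X_sub_C _
  have hGm : G.Monic := hm1.mul hm2
  have hGd : G.natDegree = n := by
    rw [hG, hm1.natDegree_mul hm2, Polynomial.natDegree_map_eq_of_injective e.injective,
      QP4_natDegree, Polynomial.natDegree_prod_of_monic _ _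
        fun i _ => Polynomial.monic_X_sub_C _]
    simp only [Polynomial.natDegree_X_sub_C, Finset.sum_const, Finset.card_range, smul_eq_mul,
      mul_one]
    exact hkm
  have key := (hKP2 K n (fun j => e (a j)) hinj).1 G hGm hGd
  refine Eq.trans ?_ key
  apply Finset.sum_congr rfl
  intro j _
  have hlm : lm (fun j => e (a j)) j = e (lm a j) := by
    unfold lm
    rw [map_inv₀, map_prod]
    simp only [map_sub]
  have hev : G.eval (e (a j)) = e ((gq c).eval (a j)) *
      ∏ i ∈ Finset.range m, (e (a j) - u ^ cq F ^ i) := by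
    rw [hG, Polynomial.eval_mul, Polynomial.eval_prod, Polynomial.eval_map, Polynomial.eval₂_hom]
    simp only [Polynomial.eval_sub, Polynomial.eval_X, Polynomial.eval_C]
  have hpw := QP4_pow e hM (a j) u (v j) (hv j).2 m
  have hsgn : ∏ i ∈ Finset.range m, (u ^ cq F ^ i - e (a j)) =
      (-1) ^ m * ∏ i ∈ Finset.range m, (e (a j) - u ^ cq F ^ i) := by
    have h1 : ∀ i ∈ Finset.range m, u ^ cq F ^ i - e (a j) = (-1) * (e (a j) - u ^ cq F ^ i) := by
      intro i _
      ring
    rw [Finset.prod_congr rfl h1, Finset.prod_mul_distrib, Finset.prod_const, Finset.card_range]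
  rw [hlm]
  have hgoal : G.eval ((fun j => e (a j)) j) = G.eval (e (a j)) := rfl
  rw [hgoal, hev, hpw, hsgn]
  have h2 : ((-1 : K) ^ m) * (-1) ^ m = 1 := by
    rw [← mul_pow]
    simp
  have hv0 : v j ≠ 0 := (hv j).1
  generalize ∏ i ∈ Finset.range m, (e (a j) - u ^ cq F ^ i) = Q
  generalize e ((gq c).eval (a j)) = g
  generalize e (lm a j) = l
  field_simp
  linear_combination l * g * Q * h2

end

end Pool.Agent.TFQ
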